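import Mathlib

set_option autoImplicit false

/-!
Sampling numbers of the classes `W ^ r_p` of functions with bounded mixed derivative: the
definitions used in the statement of the result on MP_aa31b4_an.
-/

namespace Pool.Agent.Helper37.SN

open MeasureTheory
open scoped ENNReal

/-- The normalized Haar measure of the torus `(ℝ/ℤ)^d`. -/
noncomputable def torusMeasure (d : ℕ) : Measure (Fin d → UnitAddCircle) :=
  Measure.pi (fun _ => AddCircle.haarAddCircle)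

/-- An element of `𝕜 = ℝ` or `𝕜 = ℂ` as a complex number. -/
def toC {𝕜 : Type} [RCLike 𝕜] (z : 𝕜) : ℂ := ⟨RCLike.re z, RCLike.im z⟩

/-- The Fourier coefficient `∫ f(x) exp (-2 π i k·x) dx` of a function on the torus. -/
noncomputable def torusCoeff {𝕜 : Type} [RCLike 𝕜] {d : ℕ} (f : (Fin d → UnitAddCircle) → 𝕜)
    (k : Fin d → ℤ) : ℂ :=
  ∫ x, (∏ j, (fourier (-(k j)) (x j) : ℂ)) * toC (f x) ∂torusMeasure d

/-- The `n`-th Fourier coefficient of `F_r(x) = 1 + 2 ∑_{k ≥ 1} k ^ (-r) cos (k x - r π / 2)`: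
it is `1` for `n = 0` and `|n| ^ (-r) exp (-i (r π / 2) sgn n)` for `n ≠ 0`. -/
noncomputable def kernelCoeff (r : ℝ) (n : ℤ) : ℂ :=
  if n = 0 then 1
  else ((|(n : ℝ)| ^ (-r) : ℝ) : ℂ) *
    Complex.exp (-(Complex.I * ((Real.pi / 2 * r * ((Int.sign n : ℤ) : ℝ) : ℝ) : ℂ)))

/-- The class `W ^ r_p` of the continuous functions `f = F_r * φ`, `‖φ‖_p ≤ 1`, with values in
`𝕜 = ℝ` or `𝕜 = ℂ`; the convolution is expressed by Fourier coefficients. -/
def mixedClass (𝕜 : Type) [RCLike 𝕜] (d : ℕ) (r p : ℝ) : Set ((Fin d → UnitAddCircle) → 𝕜) :=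
  {f | Continuous f ∧ ∃ φ : (Fin d → UnitAddCircle) → 𝕜,
    AEStronglyMeasurable φ (torusMeasure d) ∧
    eLpNorm φ (ENNReal.ofReal p) (torusMeasure d) ≤ 1 ∧
    ∀ k : Fin d → ℤ, torusCoeff f k = (∏ j, kernelCoeff r (k j)) * torusCoeff φ k}

/-- The sampling number `ϱ_m (W ^ r_p, L_q)`. -/
noncomputable def samplingNumber (𝕜 : Type) [RCLike 𝕜] (d : ℕ) (r p q : ℝ) (m : ℕ) : ℝ≥0∞ :=
  ⨅ (x : Fin m → Fin d → UnitAddCircle) (ψ : Fin m → C(Fin d → UnitAddCircle, 𝕜)),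
    ⨆ f ∈ mixedClass 𝕜 d r p,
      eLpNorm (fun t => f t - ∑ i, f (x i) * ψ i t) (ENNReal.ofReal q) (torusMeasure d)

end Pool.Agent.Helper37.SN
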