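import Pool.Agent.Helper37.SN.Stmts
import Pool.Agent.Helper37.SN.FinalDefs

set_option autoImplicit false

/-!
Transfer of `ST_MAIN` to the final definitions (real or complex scalars), MP_aa31b4_an.
-/

namespace Pool.Agent.Helper37.SN

open MeasureTheory
open scoped ENNReal

theorem rlk_coeff {𝕜 : Type} [RCLike 𝕜] {d : ℕ} (f : TT d → ℝ) (k : Fin d → ℤ) :
    torusCoeff (fun x => ((f x : ℝ) : 𝕜)) k = mc f k := by
  unfold torusCoeff mc
  refine integral_congr_ae (Filter.Eventually.of_forall fun x => ?_)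
  have : toC ((f x : ℝ) : 𝕜) = ((f x : ℝ) : ℂ) := by
    apply Complex.ext
    · simp [toC]
    · simp [toC]
  simp only [this]

theorem rlk_mem {𝕜 : Type} [RCLike 𝕜] {d : ℕ} {r p : ℝ} {f : TT d → ℝ} (hf : f ∈ MixW d r p) :
    (fun x => ((f x : ℝ) : 𝕜)) ∈ mixedClass 𝕜 d r p := by
  obtain ⟨hc, φ, hm, hn, hk⟩ := hf
  refine ⟨RCLike.continuous_ofReal.comp hc, fun x => ((φ x : ℝ) : 𝕜),
    RCLike.continuous_ofReal.comp_aestronglyMeasurable hm, ?_, fun k => ?_⟩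
  · refine le_trans (le_of_eq ?_) hn
    refine eLpNorm_congr_norm_ae (Filter.Eventually.of_forall fun x => ?_)
    simp
  · rw [rlk_coeff, rlk_coeff, hk k]
    rfl

theorem rlk_main (h : ST_MAIN) (𝕜 : Type) [RCLike 𝕜] (d : ℕ) (r p q : ℝ) (hd : 2 ≤ d)
    (hp1 : 1 < p) (hp2 : p < 2) (hq : 2 < q) (hr : 1 / p < r) (A : ℝ) :
    ∃ m₀ : ℕ, ∀ m : ℕ, m₀ ≤ m →
      ∀ (x : Fin m → Fin d → UnitAddCircle) (Ψ : (Fin m → 𝕜) → (Fin d → UnitAddCircle) → 𝕜),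
      (∀ v, AEStronglyMeasurable (Ψ v) (torusMeasure d)) →
      ∃ f ∈ mixedClass 𝕜 d r p, ENNReal.ofReal (A * (m : ℝ) ^ (-(r - 1 / p + 1 / q))) ≤
        eLpNorm (fun t => f t - Ψ (fun i => f (x i)) t) (ENNReal.ofReal q) (torusMeasure d) := by
  obtain ⟨m₀, hm⟩ := (h d r p q hd hp1 hp2 hq hr).1 A
  refine ⟨m₀, fun m hm0 x Ψ hΨ => ?_⟩
  obtain ⟨f, hf, hle⟩ := hm m hm0 x
    (fun v t => RCLike.re (Ψ (fun i => ((v i : ℝ) : 𝕜)) t)) (fun v =>
      RCLike.continuous_re.comp_aestronglyMeasurable (hΨ _))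
  refine ⟨fun x => ((f x : ℝ) : 𝕜), rlk_mem hf, hle.trans ?_⟩
  refine eLpNorm_mono (fun t => ?_)
  have : f t - RCLike.re (Ψ (fun i => ((f (x i) : ℝ) : 𝕜)) t) =
      RCLike.re (((f t : ℝ) : 𝕜) - Ψ (fun i => ((f (x i) : ℝ) : 𝕜)) t) := by
    rw [map_sub, RCLike.ofReal_re]
  rw [this, Real.norm_eq_abs]
  exact RCLike.abs_re_le_norm _

theorem rlk_samp (h : ST_MAIN) (𝕜 : Type) [RCLike 𝕜] (d : ℕ) (r p q : ℝ) (hd : 2 ≤ d)
    (hp1 : 1 < p) (hp2 : p < 2) (hq : 2 < q) (hr : 1 / p < r) :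
    Filter.Tendsto (fun m : ℕ => ENNReal.ofReal ((m : ℝ) ^ (r - 1 / p + 1 / q)) *
      samplingNumber 𝕜 d r p q m) Filter.atTop (nhds ⊤) := by
  refine ENNReal.tendsto_nhds_top fun n => ?_
  obtain ⟨m₀, hm⟩ := rlk_main h 𝕜 d r p q hd hp1 hp2 hq hr ((n : ℝ) + 1)
  filter_upwards [Filter.eventually_ge_atTop (max m₀ 1)] with m hm1
  have hm0 : m₀ ≤ m := le_trans (le_max_left _ _) hm1
  have hm2 : 1 ≤ m := le_trans (le_max_right _ _) hm1
  have hmpos : (0 : ℝ) < m := by exact_mod_cast hm2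
  have hS : ENNReal.ofReal (((n : ℝ) + 1) * (m : ℝ) ^ (-(r - 1 / p + 1 / q))) ≤
      samplingNumber 𝕜 d r p q m := by
    refine le_iInf fun x => le_iInf fun ψ => ?_
    obtain ⟨f, hf, hle⟩ := hm m hm0 x (fun v t => ∑ i, v i * ψ i t) (fun v => by
      refine Continuous.aestronglyMeasurable ?_
      exact continuous_finsetSum _ fun i _ => continuous_const.mul (ψ i).continuous)
    exact hle.trans (le_iSup₂ (f := fun (f : (Fin d → UnitAddCircle) → 𝕜) (_ : f ∈ mixedClass 𝕜 d r p) =>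
      eLpNorm (fun t => f t - ∑ i, f (x i) * ψ i t) (ENNReal.ofReal q) (torusMeasure d)) f hf)
  refine lt_of_lt_of_le ?_ (mul_le_mul_right hS _)
  rw [← ENNReal.ofReal_mul (by positivity)]
  have e : (m : ℝ) ^ (r - 1 / p + 1 / q) * (((n : ℝ) + 1) * (m : ℝ) ^ (-(r - 1 / p + 1 / q))) =
      (n : ℝ) + 1 := by
    rw [Real.rpow_neg hmpos.le]
    have : (m : ℝ) ^ (r - 1 / p + 1 / q) ≠ 0 := by positivity
    field_simp
  rw [e, ENNReal.lt_ofReal_iff_toReal_lt (by simp)]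
  simp

end Pool.Agent.Helper37.SN
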