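import Pool.Agent.Helper37.SN.Stmts
import Pool.Agent.Helper37.SN.Rlk
import Pool.Agent.Helper78.SN.REP
import Pool.Agent.Helper61.SN.BMP
import Pool.Agent.Helper57.SN.GG
import Pool.Agent.Helper71.SN.FCD
import Pool.Agent.Helper48.SN.FC
import Pool.Agent.Helper71.SN.SER
import Pool.Agent.Helper78.SN.CN
import Pool.Agent.Helper68.SN.FRA
import Pool.Agent.Helper81.SN.FRB
import Pool.Agent.Helper63.SN.PRD
import Pool.Agent.Helper13.SN.TAYA
import Pool.Agent.Helper20.SN.TAYB
import Pool.Agent.Helper71.SN.INT1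
import Pool.Agent.Helper13.SN.TEN
import Pool.Agent.Helper44.SN.PROJ
import Pool.Agent.Helper60.SN.OVL
import Pool.Agent.Helper82.SN.LQ
import Pool.Agent.Helper91.SN.SPK
import Pool.Agent.Helper2.SN.CST
import Pool.Agent.Helper60.SN.AVG
import Pool.Agent.Helper91.SN.PTW
import Pool.Agent.Helper38.SN.CCO
import Pool.Agent.Helper14.SN.COR
import Pool.Agent.Helper21.SN.CLU
import Pool.Agent.Helper2.SN.ANA
import Pool.Agent.Helper42.SN.BLK
import Pool.Agent.Helper42.SN.MLT
import Pool.Agent.Helper61.SN.LON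
import Pool.Agent.Helper2.SN.SPA
import Pool.Agent.Helper53.SN.EDG
import Pool.Agent.Helper90.SN.DET
import Pool.Agent.Helper90.SN.ONE
import Pool.Agent.Helper14.SN.PIG
import Pool.Agent.Helper14.SN.INTV
import Pool.Agent.Helper52.SN.GRD
import Pool.Agent.Helper53.SN.SEL
import Pool.Agent.Helper14.SN.TWO
import Pool.Agent.Helper53.SN.FOOL
import Pool.Agent.Helper51.SN.MAIN

set_option autoImplicit false

/-!
Assembly of the project SN (MP_aa31b4_an).
-/

namespace Pool.Agent.Helper37.SN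

theorem all_BMP : ST_BMP := st_BMP st_REP
theorem all_CN : ST_CN := st_CN (st_FC st_FCD) st_SER
theorem all_FRB : ST_FRB := st_FRB all_CN st_FRA st_REP
theorem all_PRD : ST_PRD := Pool.Agent.Helper63.SN.prd st_GG
theorem all_TAYA : ST_TAYA := st_TAYA st_GG all_PRD
theorem all_TAYB : ST_TAYB := Pool.Agent.Helper20.SN.sn_TAYB st_GG all_PRD
theorem all_OVL : ST_OVL := st_OVL st_INT1 st_PROJ
theorem all_LQ : ST_LQ := st_LQ all_BMP st_PROJ st_REP
theorem all_SPK : ST_SPK := st_SPK st_GG st_REP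
theorem all_AVG : ST_AVG := st_AVG all_FRB st_TEN all_OVL all_LQ all_BMP
theorem all_PTW : ST_PTW := st_PTW st_REP st_GG
theorem all_CCO : ST_CCO := Pool.Agent.Helper38.SN.CCO all_AVG all_TAYA all_TAYB st_CST
theorem all_COR : ST_COR := st_COR all_PTW all_CCO
theorem all_ANA : ST_ANA := st_ANA all_AVG all_COR st_CST all_SPK st_CLU st_GG all_BMP st_REP
theorem all_ONE : ST_ONE := st_ONE st_MLT (st_LON st_BLK) (st_SPA st_BLK) st_EDG st_DET
theorem all_TWO : ST_TWO := st_TWO (st_PIG all_ONE) st_INTV (st_SEL st_GRD)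
theorem all_MAIN : ST_MAIN := st_MAIN (st_FOOL all_TWO all_ANA)

end Pool.Agent.Helper37.SN
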