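import Mathlib

set_option autoImplicit false

/-!
Statements of the project SN: sampling numbers of mixed Sobolev classes (MP_aa31b4_an).
For `d ≥ 2`, `1 < p < 2 < q`, `r > 1/p` the normalized sampling numbers
`m ^ (r - 1/p + 1/q) * ϱ_m (W ^ r_p, L_q)` tend to infinity.
-/

namespace Pool.Agent.Helper37.SN

open MeasureTheory Finset
open scoped ENNReal Classical

/-! ### Basic objects -/

/-- the `d`-dimensional torus `(ℝ/ℤ)^d` -/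
abbrev TT (d : ℕ) : Type := Fin d → UnitAddCircle

/-- points of the two-dimensional torus -/
abbrev P2 : Type := UnitAddCircle × UnitAddCircle

/-- normalized Haar measure on the circle -/
noncomputable def haar1 : Measure UnitAddCircle := AddCircle.haarAddCircle

/-- normalized Haar measure on the torus -/
noncomputable def haar (d : ℕ) : Measure (TT d) := Measure.pi (fun _ => haar1)

/-- Fourier coefficient of a real function on the circle -/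
noncomputable def fc1 (u : UnitAddCircle → ℝ) (n : ℤ) : ℂ :=
  ∫ t, (fourier (-n) t : ℂ) * ((u t : ℝ) : ℂ) ∂haar1

/-- Fourier coefficient of a real function on the torus -/
noncomputable def mc {d : ℕ} (f : TT d → ℝ) (k : Fin d → ℤ) : ℂ :=
  ∫ x, (∏ j, (fourier (-(k j)) (x j) : ℂ)) * ((f x : ℝ) : ℂ) ∂haar d

/-- Fourier coefficient of the kernel `F_r(x) = 1 + 2 ∑ k^(-r) cos (k x - r π / 2)` -/
noncomputable def mult (r : ℝ) (n : ℤ) : ℂ :=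
  if n = 0 then 1
  else ((|(n : ℝ)| ^ (-r) : ℝ) : ℂ) *
    Complex.exp (-(Complex.I * ((Real.pi / 2 * r * ((Int.sign n : ℤ) : ℝ) : ℝ) : ℂ)))

/-- the class `W ^ r_p` of functions `f = F_r * φ`, `‖φ‖_p ≤ 1`, on the torus -/
def MixW (d : ℕ) (r p : ℝ) : Set (TT d → ℝ) :=
  {f | Continuous f ∧ ∃ φ : TT d → ℝ, AEStronglyMeasurable φ (haar d) ∧
    eLpNorm φ (ENNReal.ofReal p) (haar d) ≤ 1 ∧
    ∀ k : Fin d → ℤ, mc f k = (∏ j, mult r (k j)) * mc φ k}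

/-- the sampling numbers `ϱ_m (W ^ r_p, L_q)` -/
noncomputable def samp (d : ℕ) (r p q : ℝ) (m : ℕ) : ℝ≥0∞ :=
  ⨅ (x : Fin m → TT d) (ψ : Fin m → C(TT d, ℝ)),
    ⨆ f ∈ MixW d r p, eLpNorm (fun t => f t - ∑ i, f (x i) * ψ i t) (ENNReal.ofReal q) (haar d)

/-- representative in `(-1/2, 1/2]` -/
noncomputable def rep (t : UnitAddCircle) : ℝ := (AddCircle.equivIoc (1 : ℝ) (-(1 / 2)) t : ℝ)

/-- the profile `W` at scale `2 ^ (-σ)` around `x` -/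
noncomputable def bmp (W : ℝ → ℝ) (σ : ℕ) (x t : UnitAddCircle) : ℝ := W (2 ^ σ * rep (t - x))

/-- admissible profiles -/
def Adm (k : ℕ) (a : ℝ) (W : ℝ → ℝ) : Prop :=
  ContDiff ℝ k W ∧ (∀ y, 2 ≤ |y| → W y = 0) ∧ ∀ i ≤ k, ∀ y, |iteratedDeriv i W y| ≤ a

/-- number of derivatives used -/
noncomputable def kk (r : ℝ) : ℕ := ⌈r⌉₊ + 2

/-- envelope -/
noncomputable def env (σ : ℕ) (t : UnitAddCircle) : ℝ := 1 / (1 + 2 ^ σ * ‖t‖)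

/-- Fourier transform of a profile -/
noncomputable def FT (W : ℝ → ℝ) (ξ : ℝ) : ℂ :=
  ∫ y : ℝ, Complex.exp (-(((2 * Real.pi * ξ * y : ℝ) : ℂ) * Complex.I)) * ((W y : ℝ) : ℂ)

/-- Fourier coefficients of the fractional derivative of a bump (centered at `0`) -/
noncomputable def cc (r : ℝ) (W : ℝ → ℝ) (σ : ℕ) (n : ℤ) : ℂ :=
  (mult r n)⁻¹ * ((2 ^ σ : ℝ) : ℂ)⁻¹ * FT W ((n : ℝ) / 2 ^ σ)

/-- `(x, y) ↦ u x₀ * v x₁` -/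
def ten {e : ℕ} (u v : UnitAddCircle → ℝ) : TT (e + 2) → ℝ := fun x => u (x 0) * v (x 1)

/-- the basic cut-off: `1` on `[-1, 1]`, `0` outside `(-2, 2)` -/
noncomputable def gg (y : ℝ) : ℝ := Real.smoothTransition (2 - y) * Real.smoothTransition (2 + y)

/-- Taylor polynomial of `y ↦ gg (a + h y)` at `0` -/
noncomputable def tay (M : ℕ) (a h y : ℝ) : ℝ :=
  ∑ β ∈ Finset.range M, iteratedDeriv β gg a / (β.factorial : ℝ) * (h * y) ^ β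

/-- `F = F_r * φ` with `‖φ‖_p ≤ c`, `‖F‖_q ≤ b` -/
def Cost (r p q : ℝ) {d : ℕ} (F : TT d → ℝ) (c b : ℝ) : Prop :=
  Continuous F ∧
  (∃ φ : TT d → ℝ, Continuous φ ∧ (∀ k : Fin d → ℤ, mc F k = (∏ j, mult r (k j)) * mc φ k) ∧
    eLpNorm φ (ENNReal.ofReal p) (haar d) ≤ ENNReal.ofReal c) ∧
  eLpNorm F (ENNReal.ofReal q) (haar d) ≤ ENNReal.ofReal b

/-- `z` lies in the box of shape `s` and depth `ρ` around `x` -/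
def Bx (n : ℕ) (ρ : ℤ) (s : ℕ) (x z : P2) : Prop :=
  ‖z.1 - x.1‖ ≤ (2 : ℝ) ^ (-((s : ℤ) + ρ)) ∧ ‖z.2 - x.2‖ ≤ (2 : ℝ) ^ (-((n : ℤ) - s + ρ))

/-- the main spike of shape `s` at `y` -/
noncomputable def spk (n s : ℕ) (y z : P2) : ℝ := bmp gg s y.1 z.1 * bmp gg (n - s) y.2 z.2

/-- the first two coordinates -/
def pr {e : ℕ} (x : TT (e + 2)) : P2 := (x 0, x 1)

/-- the nodes in a box -/
noncomputable def near {m : ℕ} (X : Fin m → P2) (n : ℕ) (ρ : ℤ) (y : P2) (s : ℕ) :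
    Finset (Fin m) := univ.filter (fun z => Bx n ρ s y (X z))

/-- intervals containing `s` at depth `ρ` -/
noncomputable def NN {m : ℕ} (a b : Fin m → ℤ) (ρ s : ℤ) : Finset (Fin m) :=
  univ.filter (fun z => a z + ρ ≤ s ∧ s ≤ b z - ρ)

/-- light points -/
noncomputable def LL {m : ℕ} (a b : Fin m → ℤ) (n B : ℕ) : Finset ℤ :=
  (Finset.Icc (0 : ℤ) n).filter (fun s => (NN a b 0 s).card ≤ B)

/-- light points covered by an interval of medium length -/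
noncomputable def Med {m : ℕ} (a b : Fin m → ℤ) (n B ρ Λ : ℕ) : Finset ℤ :=
  (LL a b n B).filter (fun s => ∃ z ∈ NN a b 0 s,
    2 * ((ρ : ℤ) - 1) ≤ b z - a z ∧ b z - a z < (Λ : ℤ))

/-- good points -/
def GoodAt {m : ℕ} (a b : Fin m → ℤ) (n j w ρ : ℕ) (s₀ : ℤ) : Prop :=
  ∃ (G : Finset ℤ) (sp sm : ℤ), w ≤ G.card ∧ (∀ s ∈ G, 0 ≤ s ∧ s ≤ n) ∧
    s₀ + j ≤ sp ∧ sp ≤ n ∧ 0 ≤ sm ∧ sm ≤ s₀ - j ∧
    ∀ s ∈ insert s₀ (insert sp (insert sm G)),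
      NN a b ((ρ : ℤ) - 1) s = NN a b ρ s₀ ∧ NN a b ρ s = NN a b ρ s₀

/-! ### One-dimensional analysis -/

/-- REP: the representative. -/
def ST_REP : Prop := (∀ t : UnitAddCircle, ((rep t : ℝ) : UnitAddCircle) = t) ∧
  (∀ t : UnitAddCircle, |rep t| = ‖t‖) ∧ (∀ t : UnitAddCircle, -(1 / 2) < rep t ∧ rep t ≤ 1 / 2) ∧
  (∀ u : ℝ, -(1 / 2) < u → u ≤ 1 / 2 → rep ((u : ℝ) : UnitAddCircle) = u) ∧
  (∀ s t : UnitAddCircle, |rep s + rep t| < 1 / 2 → rep (s + t) = rep s + rep t)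

/-- BMP: bumps are continuous, bounded, supported near the center. -/
def ST_BMP : Prop := ∀ (W : ℝ → ℝ) (σ : ℕ) (x : UnitAddCircle), 3 ≤ σ → Continuous W →
  (∀ y, 2 ≤ |y| → W y = 0) → Continuous (bmp W σ x) ∧
  (∀ t, 2 / 2 ^ σ ≤ ‖t - x‖ → bmp W σ x t = 0)

/-- GG: the basic cut-off. -/
def ST_GG : Prop := ContDiff ℝ (⊤ : ℕ∞) gg ∧ (∀ y, |y| ≤ 1 → gg y = 1) ∧ (∀ y, 2 ≤ |y| → gg y = 0) ∧
  (∀ y, 0 ≤ gg y ∧ gg y ≤ 1) ∧ ∀ k : ℕ, ∃ C : ℝ, 0 < C ∧ Adm k C gg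

/-- FRA: Fourier coefficients of a bump. -/
def ST_FRA : Prop := ∀ (W : ℝ → ℝ) (σ : ℕ) (x : UnitAddCircle) (n : ℤ), 3 ≤ σ → Continuous W →
  (∀ y, 2 ≤ |y| → W y = 0) →
  fc1 (bmp W σ x) n = (fourier (-n) x : ℂ) * (((2 ^ σ : ℝ) : ℂ)⁻¹ * FT W ((n : ℝ) / 2 ^ σ))

/-- FCD: decay of the Fourier transform of a complex profile. -/
def ST_FCD : Prop := ∀ k : ℕ, ∃ C : ℝ, 0 < C ∧ ∀ (a : ℝ) (W : ℝ → ℂ), ContDiff ℝ k W →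
  (∀ y, 2 ≤ |y| → W y = 0) → (∀ i ≤ k, ∀ y, ‖iteratedDeriv i W y‖ ≤ a) →
  ∀ ξ : ℝ, ‖∫ y : ℝ, Complex.exp (-(((2 * Real.pi * ξ * y : ℝ) : ℂ) * Complex.I)) * W y‖ ≤
    C * a / (1 + |ξ|) ^ k

/-- FC: decay of the Fourier transform and of its increments. -/
def ST_FC : Prop := ∀ k : ℕ, ∃ C : ℝ, 0 < C ∧ ∀ (a : ℝ) (W : ℝ → ℝ), Adm k a W →
  (∀ ξ : ℝ, ‖FT W ξ‖ ≤ C * a / (1 + |ξ|) ^ k) ∧
  (∀ ξ η : ℝ, |ξ - η| ≤ 1 → ‖FT W ξ - FT W η‖ ≤ C * a * |ξ - η| / (1 + |ξ|) ^ k)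

/-- SER: the basic sum. -/
def ST_SER : Prop := ∀ β : ℝ, -1 < β → ∀ k : ℕ, β + 2 ≤ k → ∃ C : ℝ, 0 < C ∧
  ∀ h : ℝ, 0 < h → h ≤ 1 → ∀ N : ℕ,
  ∑ n ∈ Finset.range N, ((n : ℝ) + 1) ^ β / (1 + ((n : ℝ) + 1) * h) ^ k ≤ C * h ^ (-(β + 1))

/-- CN: the coefficients of the fractional derivative and their increments are summable. -/
def ST_CN : Prop := ∀ r : ℝ, 0 < r → ∃ C : ℝ, 0 < C ∧ ∀ (a : ℝ) (W : ℝ → ℝ), Adm (kk r) a W →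
  ∀ σ : ℕ, (Summable fun n : ℤ => ‖cc r W σ n‖) ∧
  ∑' n : ℤ, ‖cc r W σ n‖ ≤ C * a * (2 : ℝ) ^ (r * σ) ∧
  (Summable fun n : ℤ => ‖cc r W σ (n + 1) - cc r W σ n‖) ∧
  ∑' n : ℤ, ‖cc r W σ (n + 1) - cc r W σ n‖ ≤ C * a * (2 : ℝ) ^ ((r - 1) * σ)

/-- FRB: the fractional derivative of a bump decays. -/
def ST_FRB : Prop := ∀ r : ℝ, 0 < r → ∃ C : ℝ, 0 < C ∧ ∀ (a : ℝ) (W : ℝ → ℝ), Adm (kk r) a W →
  ∀ (σ : ℕ) (x : UnitAddCircle), 3 ≤ σ → ∃ φ : UnitAddCircle → ℝ, Continuous φ ∧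
  (∀ n : ℤ, fc1 (bmp W σ x) n = mult r n * fc1 φ n) ∧
  ∀ t, |φ t| ≤ C * a * (2 : ℝ) ^ (r * σ) * env σ (t - x)

/-- PRD: products of profiles with the cut-off. -/
def ST_PRD : Prop := ∀ k : ℕ, ∃ C : ℝ, 0 < C ∧ ∀ (a : ℝ) (V : ℝ → ℝ), ContDiff ℝ k V →
  (∀ i ≤ k, ∀ y, |y| ≤ 2 → |iteratedDeriv i V y| ≤ a) → Adm k (C * a) (fun y => V y * gg y)

/-- TAYA: the profiles used for the corrections, main terms. -/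
def ST_TAYA : Prop := ∀ k M : ℕ, ∃ C : ℝ, 0 < C ∧ ∀ a h : ℝ, 0 < h → h ≤ 1 →
  Adm k C (fun y => gg (a + h * y) * gg y) ∧
  Adm k C (fun y => tay M a h y * gg y) ∧
  (∀ β < M, |iteratedDeriv β gg a / (β.factorial : ℝ)| ≤ C) ∧
  ∀ β < M, Adm k C (fun y => y ^ β * gg y)

/-- TAYB: the profiles used for the corrections, remainder terms. -/
def ST_TAYB : Prop := ∀ k M : ℕ, k ≤ M → ∃ C : ℝ, 0 < C ∧ ∀ a h : ℝ, 0 < h → h ≤ 1 →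
  Adm k (C * h ^ M) (fun y => (gg (a + h * y) - tay M a h y) * gg y)

/-- INT1: one-dimensional overlap integrals. -/
def ST_INT1 : Prop := ∀ p : ℝ, 1 < p → p < 2 → ∃ C : ℝ, 0 < C ∧ ∀ σ σ' : ℕ,
  (σ ≤ σ' → ∫⁻ t, ENNReal.ofReal (env σ t * env σ' t ^ (p - 1)) ∂haar1 ≤
    ENNReal.ofReal (C * (2 : ℝ) ^ (-(σ : ℝ)) * (2 : ℝ) ^ (-((p - 1) * ((σ' : ℝ) - σ))))) ∧
  (σ' ≤ σ → ∫⁻ t, ENNReal.ofReal (env σ t * env σ' t ^ (p - 1)) ∂haar1 ≤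
    ENNReal.ofReal (C * (2 : ℝ) ^ (-(σ : ℝ)) * (1 + ((σ : ℝ) - σ'))))

/-! ### Several dimensions -/

/-- TEN: tensor products. -/
def ST_TEN : Prop := ∀ (e : ℕ) (r : ℝ) (u v φ ψ : UnitAddCircle → ℝ), Continuous u → Continuous v →
  Continuous φ → Continuous ψ → (∀ n : ℤ, fc1 u n = mult r n * fc1 φ n) →
  (∀ n : ℤ, fc1 v n = mult r n * fc1 ψ n) → ∀ k : Fin (e + 2) → ℤ,
  mc (ten u v : TT (e + 2) → ℝ) k = (∏ j, mult r (k j)) * mc (ten φ ψ : TT (e + 2) → ℝ) k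

/-- PROJ: integration of functions of two coordinates. -/
def ST_PROJ : Prop := ∀ (e : ℕ) (F : UnitAddCircle → UnitAddCircle → ℝ≥0∞),
  Measurable (fun z : P2 => F z.1 z.2) →
  ∫⁻ x : TT (e + 2), F (x 0) (x 1) ∂haar (e + 2) = ∫⁻ s, ∫⁻ t, F s t ∂haar1 ∂haar1

/-- OVL: the `L_p` norm of a sum of envelopes over shapes. -/
def ST_OVL : Prop := ∀ p : ℝ, 1 < p → p < 2 → ∃ C : ℝ, 0 < C ∧
  ∀ (e n ρ : ℕ) (G : Finset ℕ) (x₁ x₂ : UnitAddCircle), (∀ s ∈ G, s ≤ n) →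
  ∫⁻ x : TT (e + 2), ENNReal.ofReal
    ((∑ s ∈ G, env (s + ρ) (x 0 - x₁) * env (n - s + ρ) (x 1 - x₂)) ^ p) ∂haar (e + 2) ≤
  ENNReal.ofReal (C * G.card * (2 : ℝ) ^ (-((n : ℝ) + 2 * ρ)))

/-- LQ: the `L_q` norm of a tensor product of bumps. -/
def ST_LQ : Prop := ∀ q : ℝ, 1 ≤ q → ∃ C : ℝ, 0 < C ∧
  ∀ (e : ℕ) (a₁ a₂ : ℝ) (W₁ W₂ : ℝ → ℝ) (σ₁ σ₂ : ℕ) (x₁ x₂ : UnitAddCircle),
  Adm 0 a₁ W₁ → Adm 0 a₂ W₂ → 3 ≤ σ₁ → 3 ≤ σ₂ →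
  eLpNorm (ten (bmp W₁ σ₁ x₁) (bmp W₂ σ₂ x₂) : TT (e + 2) → ℝ) (ENNReal.ofReal q)
    (haar (e + 2)) ≤ ENNReal.ofReal (C * a₁ * a₂ * (2 : ℝ) ^ (-(((σ₁ : ℝ) + σ₂) / q)))

/-- SPK: lower bound for the `L_q` norm of the main spike. -/
def ST_SPK : Prop := ∀ (q : ℝ) (e n s : ℕ) (y : P2), 1 ≤ q → 3 ≤ s → s + 3 ≤ n →
  ENNReal.ofReal ((2 : ℝ) ^ (-((n : ℝ) / q))) ≤
    eLpNorm (fun x : TT (e + 2) => spk n s y (pr x)) (ENNReal.ofReal q) (haar (e + 2))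

/-- CST: the cost is subadditive and homogeneous. -/
def ST_CST : Prop := ∀ (r p q : ℝ) (d : ℕ), 1 ≤ p → 1 ≤ q →
  (∀ (F : TT d → ℝ) (c b l : ℝ), Cost r p q F c b →
    Cost r p q (fun x => l * F x) (|l| * c) (|l| * b)) ∧
  (∀ (F F' : TT d → ℝ) (c b c' b' : ℝ), 0 ≤ c → 0 ≤ b → 0 ≤ c' → 0 ≤ b' → Cost r p q F c b →
    Cost r p q F' c' b' → Cost r p q (fun x => F x + F' x) (c + c') (b + b')) ∧
  (∀ (ι : Type) (S : Finset ι) (F : ι → TT d → ℝ) (c b : ι → ℝ), (∀ i ∈ S, 0 ≤ c i) →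
    (∀ i ∈ S, 0 ≤ b i) → (∀ i ∈ S, Cost r p q (F i) (c i) (b i)) →
    Cost r p q (fun x => ∑ i ∈ S, F i x) (∑ i ∈ S, c i) (∑ i ∈ S, b i)) ∧
  (∀ (F : TT d → ℝ) (c b c' b' : ℝ), c ≤ c' → b ≤ b' → Cost r p q F c b → Cost r p q F c' b')

/-- AVG: the cost of an average over shapes. -/
def ST_AVG : Prop := ∀ r p q : ℝ, 1 < p → p < 2 → 2 < q → 1 / p < r → ∃ C : ℝ, 0 < C ∧
  ∀ (e n ρ : ℕ) (a₁ a₂ : ℝ) (W₁ W₂ : ℝ → ℝ) (G : Finset ℕ) (x₁ x₂ : UnitAddCircle),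
  Adm (kk r) a₁ W₁ → Adm (kk r) a₂ W₂ → G.Nonempty →
  (∀ s ∈ G, s ≤ n ∧ 3 ≤ s + ρ ∧ 3 ≤ n - s + ρ) →
  Cost r p q (fun x : TT (e + 2) => (G.card : ℝ)⁻¹ *
      ∑ s ∈ G, bmp W₁ (s + ρ) x₁ (x 0) * bmp W₂ (n - s + ρ) x₂ (x 1))
    (C * a₁ * a₂ * (G.card : ℝ) ^ (-(1 - 1 / p)) * (2 : ℝ) ^ ((r - 1 / p) * ((n : ℝ) + 2 * ρ)))
    (C * a₁ * a₂ * (2 : ℝ) ^ (-(((n : ℝ) + 2 * ρ) / q)))

/-- a bump of shape `s` and depth `ρ` at `x` -/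
noncomputable def tb (W₁ W₂ : ℝ → ℝ) (n ρ s : ℕ) (x z : P2) : ℝ :=
  bmp W₁ (s + ρ) x.1 z.1 * bmp W₂ (n - s + ρ) x.2 z.2

/-- the off-diagonal terms of the correction -/
noncomputable def offd (n ρ s₀ sp sm : ℕ) (a₁ a₂ : ℝ) (β₁ β₂ : ℕ) (x z : P2) : ℝ :=
  if β₂ < β₁ then
    iteratedDeriv β₁ gg a₁ / (β₁.factorial : ℝ) * (iteratedDeriv β₂ gg a₂ / (β₂.factorial : ℝ)) *
      ((1 / 2 : ℝ) ^ ρ) ^ (β₁ + β₂) * (1 / 2 : ℝ) ^ ((sp - s₀) * (β₁ - β₂)) *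
      tb (fun y => y ^ β₁ * gg y) (fun y => y ^ β₂ * gg y) n ρ sp x z
  else if β₁ < β₂ then
    iteratedDeriv β₁ gg a₁ / (β₁.factorial : ℝ) * (iteratedDeriv β₂ gg a₂ / (β₂.factorial : ℝ)) *
      ((1 / 2 : ℝ) ^ ρ) ^ (β₁ + β₂) * (1 / 2 : ℝ) ^ ((s₀ - sm) * (β₂ - β₁)) *
      tb (fun y => y ^ β₁ * gg y) (fun y => y ^ β₂ * gg y) n ρ sm x z
  else 0

/-- the correction with centers in scaled coordinates `a₁, a₂` -/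
noncomputable def hcor (M n ρ s₀ sp sm : ℕ) (G : Finset ℕ) (a₁ a₂ : ℝ) (x z : P2) : ℝ :=
  (∑ β ∈ Finset.range M,
    iteratedDeriv β gg a₁ / (β.factorial : ℝ) * (iteratedDeriv β gg a₂ / (β.factorial : ℝ)) *
      ((1 / 2 : ℝ) ^ ρ) ^ (2 * β) * ((G.card : ℝ)⁻¹ *
        ∑ s ∈ G, tb (fun y => y ^ β * gg y) (fun y => y ^ β * gg y) n ρ s x z)) +
  (∑ β₁ ∈ Finset.range M, ∑ β₂ ∈ Finset.range M, offd n ρ s₀ sp sm a₁ a₂ β₁ β₂ x z) +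
  tb (fun y => (gg (a₁ + (1 / 2) ^ ρ * y) - tay M a₁ ((1 / 2) ^ ρ) y) * gg y)
    (fun y => gg (a₂ + (1 / 2) ^ ρ * y) * gg y) n ρ s₀ x z +
  tb (fun y => tay M a₁ ((1 / 2) ^ ρ) y * gg y)
    (fun y => (gg (a₂ + (1 / 2) ^ ρ * y) - tay M a₂ ((1 / 2) ^ ρ) y) * gg y) n ρ s₀ x z

/-- PTW: the correction interpolates the spike at the cluster. -/
def ST_PTW : Prop := ∀ (M n ρ s₀ sp sm : ℕ) (G : Finset ℕ) (y x : P2), 3 ≤ ρ → 3 ≤ s₀ →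
  s₀ + 3 ≤ n → G.Nonempty → (∀ s ∈ G, s ≤ n) → s₀ ≤ sp → sp ≤ n → sm ≤ s₀ →
  Bx n (-1) s₀ y x → ∀ z : P2,
  ((∀ s ∈ insert s₀ (insert sp (insert sm G)), Bx n ρ s x z) →
    hcor M n ρ s₀ sp sm G (2 ^ s₀ * rep (x.1 - y.1)) (2 ^ (n - s₀) * rep (x.2 - y.2)) x z =
      spk n s₀ y z) ∧
  ((∀ s ∈ insert s₀ (insert sp (insert sm G)), ¬ Bx n ((ρ : ℤ) - 1) s x z) →
    hcor M n ρ s₀ sp sm G (2 ^ s₀ * rep (x.1 - y.1)) (2 ^ (n - s₀) * rep (x.2 - y.2)) x z = 0)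

/-- CCO: the cost of the correction. -/
def ST_CCO : Prop := ∀ r p q : ℝ, 1 < p → p < 2 → 2 < q → 1 / p < r → ∃ C : ℝ, 0 < C ∧
  ∀ (e n ρ s₀ j sp sm : ℕ) (G : Finset ℕ) (a₁ a₂ : ℝ) (x : P2), 3 ≤ ρ → s₀ ≤ n → G.Nonempty →
  (∀ s ∈ G, s ≤ n) → s₀ + j ≤ sp → sp ≤ n → sm + j ≤ s₀ →
    Cost r p q (fun z : TT (e + 2) => hcor (2 * kk r + 1) n ρ s₀ sp sm G a₁ a₂ x (pr z))
      (C * (2 : ℝ) ^ ((r - 1 / p) * (n : ℝ)) *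
        ((G.card : ℝ) ^ (-(1 - 1 / p)) * (2 : ℝ) ^ ((r - 1 / p) * (2 * (ρ : ℝ))) +
          (2 : ℝ) ^ ((r - 1 / p) * (2 * (ρ : ℝ)) - j) + (2 : ℝ) ^ (-(ρ : ℝ))))
      (C * (2 : ℝ) ^ (-(((n : ℝ) + 2 * ρ) / q)))

/-- COR: the correction of the spike at one cluster of nodes. -/
def ST_COR : Prop := ∀ r p q : ℝ, 1 < p → p < 2 → 2 < q → 1 / p < r → ∃ C : ℝ, 0 < C ∧
  ∀ (e n ρ s₀ j sp sm : ℕ) (G : Finset ℕ) (y x : P2), 3 ≤ ρ → 3 ≤ s₀ → s₀ + 3 ≤ n → G.Nonempty →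
  (∀ s ∈ G, s ≤ n) → s₀ + j ≤ sp → sp ≤ n → sm + j ≤ s₀ → Bx n (-1) s₀ y x →
  ∃ h : TT (e + 2) → ℝ,
    Cost r p q h
      (C * (2 : ℝ) ^ ((r - 1 / p) * (n : ℝ)) *
        ((G.card : ℝ) ^ (-(1 - 1 / p)) * (2 : ℝ) ^ ((r - 1 / p) * (2 * (ρ : ℝ))) +
          (2 : ℝ) ^ ((r - 1 / p) * (2 * (ρ : ℝ)) - j) + (2 : ℝ) ^ (-(ρ : ℝ))))
      (C * (2 : ℝ) ^ (-(((n : ℝ) + 2 * ρ) / q))) ∧
    ∀ z : TT (e + 2),
      ((∀ s ∈ insert s₀ (insert sp (insert sm G)), Bx n ρ s x (pr z)) → h z = spk n s₀ y (pr z)) ∧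
      ((∀ s ∈ insert s₀ (insert sp (insert sm G)), ¬ Bx n ((ρ : ℤ) - 1) s x (pr z)) → h z = 0)

/-- the combinatorial data at `(y, s₀)` -/
def Dat {m : ℕ} (X : Fin m → P2) (n ρ B j w : ℕ) (y : P2) (s₀ : ℕ) : Prop :=
  3 ≤ s₀ ∧ s₀ + 3 ≤ n ∧ (near X n (-1) y s₀).card ≤ B ∧
  ∀ i ∈ near X n (-1) y s₀, ∃ (G : Finset ℕ) (sp sm : ℕ), w ≤ G.card ∧ (∀ s ∈ G, s ≤ n) ∧
    s₀ + j ≤ sp ∧ sp ≤ n ∧ sm + j ≤ s₀ ∧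
    ∀ s ∈ insert s₀ (insert sp (insert sm G)),
      near X n ((ρ : ℤ) - 1) (X i) s = near X n ρ (X i) s₀ ∧
      near X n ρ (X i) s = near X n ρ (X i) s₀

/-- CLU: representatives of the clusters. -/
def ST_CLU : Prop := ∀ (m n ρ s₀ : ℕ) (X : Fin m → P2) (y : P2),
  (∀ i ∈ near X n (-1) y s₀, near X n ((ρ : ℤ) - 1) (X i) s₀ = near X n ρ (X i) s₀) →
  ∃ R : Finset (Fin m), R ⊆ near X n (-1) y s₀ ∧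
    (∀ i ∈ R, ∀ i' ∈ R, i ≠ i' → Disjoint (near X n ρ (X i) s₀) (near X n ρ (X i') s₀)) ∧
    ∀ z ∈ near X n (-1) y s₀, ∃ i ∈ R, z ∈ near X n ρ (X i) s₀

/-- ANA: the fooling function. -/
def ST_ANA : Prop := ∀ r p q : ℝ, 1 < p → p < 2 → 2 < q → 1 / p < r → ∀ e : ℕ,
  ∃ c : ℝ, 0 < c ∧ ∀ B : ℕ, ∃ (ρ₀ : ℕ) (j w : ℕ → ℕ), ∀ (n ρ m : ℕ) (X : Fin m → TT (e + 2))
    (y : P2) (s₀ : ℕ), ρ₀ ≤ ρ → Dat (fun i => pr (X i)) n ρ B (j ρ) (w ρ) y s₀ →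
    ∃ f ∈ MixW (e + 2) r p, (∀ i, f (X i) = 0) ∧
      ENNReal.ofReal (c * (2 : ℝ) ^ (-((n : ℝ) * (r - 1 / p + 1 / q)))) ≤
        eLpNorm f (ENNReal.ofReal q) (haar (e + 2))

/-! ### Combinatorics -/

/-- BLK: counting with blocks. -/
def ST_BLK : Prop := ∀ (A : Finset ℤ) (n u v : ℕ), 1 ≤ u → (∀ s ∈ A, 0 ≤ s ∧ s ≤ n) →
  (∀ s ∈ A, (A.filter (fun t => s ≤ t ∧ t < s + u)).card ≤ v) → A.card ≤ v * ((n + 1) / u + 1)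

/-- MLT: double counting with windows. -/
def ST_MLT : Prop := ∀ (A E : Finset ℤ) (W t : ℕ),
  (∀ s ∈ E, t ≤ (A.filter (fun x => |x - s| ≤ W)).card) → t * E.card ≤ (2 * W + 1) * A.card

/-- lonely points of `A`: few points of `A` within distance `u` on one side -/
noncomputable def Lon (A : Finset ℤ) (κ u : ℕ) : Finset ℤ :=
  A.filter (fun s : ℤ => (A.filter (fun t : ℤ => s ≤ t ∧ t ≤ s + (u : ℤ))).card < κ ∨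
    (A.filter (fun t : ℤ => s - (u : ℤ) ≤ t ∧ t ≤ s)).card < κ)

/-- LON: few lonely points. -/
def ST_LON : Prop := ∀ (A : Finset ℤ) (n κ u : ℕ), 1 ≤ u → (∀ s ∈ A, 0 ≤ s ∧ s ≤ n) →
  (Lon A κ u).card ≤ 2 * κ * ((n + 1) / u + 1)

/-- SPA: few points with a sparse window on one side. -/
def ST_SPA : Prop := ∀ (A : Finset ℤ) (n j t u : ℕ), 1 ≤ u → (∀ s ∈ A, 0 ≤ s ∧ s ≤ n) →
  (A.filter (fun s : ℤ => (A.filter (fun x : ℤ => s + (j : ℤ) ≤ x ∧ x ≤ s + (u : ℤ))).card < t ∨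
    (A.filter (fun x : ℤ => s - (u : ℤ) ≤ x ∧ x ≤ s - (j : ℤ))).card < t)).card ≤
    2 * (t + j) * ((n + 1) / u + 1)

/-- points close to an end of (the `(ρ-1)`-core of) an interval containing many light points -/
noncomputable def Edg {m : ℕ} (a b : Fin m → ℤ) (n B ρ κ W : ℕ) : Finset ℤ :=
  (Finset.Icc (0 : ℤ) n).filter (fun s => ∃ z : Fin m,
    κ ≤ ((LL a b n B).filter (fun t => a z ≤ t ∧ t ≤ b z)).card ∧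
    (|s - (a z + ((ρ : ℤ) - 1))| ≤ (W : ℤ) + 1 ∨ |s - (b z - ((ρ : ℤ) - 1))| ≤ (W : ℤ) + 1))

/-- EDG: few points close to an end. -/
def ST_EDG : Prop := ∀ (n B ρ κ W m : ℕ) (a b : Fin m → ℤ),
  κ * (Edg a b n B ρ κ W).card ≤ 2 * (2 * W + 3) * (B * (n + 1))

/-- DET: points outside the exceptional sets are good. -/
def ST_DET : Prop := ∀ (n B j w ρ κ W u Λ m : ℕ) (a b : Fin m → ℤ) (s₀ : ℤ), 1 ≤ ρ → 2 * u + 2 ≤ Λ →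
  s₀ ∈ LL a b n B → s₀ ∉ Med a b n B ρ Λ → s₀ ∉ Lon (LL a b n B) κ u → s₀ ∉ Edg a b n B ρ κ W →
  w + 1 ≤ ((LL a b n B).filter (fun s => s₀ + j ≤ s ∧ s ≤ s₀ + W ∧ s ∉ Med a b n B ρ Λ ∧
    s ∉ Lon (LL a b n B) κ u)).card →
  w + 1 ≤ ((LL a b n B).filter (fun s => s₀ - W ≤ s ∧ s ≤ s₀ - j ∧ s ∉ Med a b n B ρ Λ ∧
    s ∉ Lon (LL a b n B) κ u)).card → GoodAt a b n j w ρ s₀

/-- ONE: few bad points at one scale. -/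
def ST_ONE : Prop := ∀ ε : ℝ, 0 < ε → ∃ D : ℝ, 0 < D ∧ ∀ B j w ρ : ℕ, 1 ≤ ρ →
  ∃ Λ n₀ : ℕ, ∀ n : ℕ, n₀ ≤ n → ∀ (m : ℕ) (a b : Fin m → ℤ),
  (((LL a b n B).filter (fun s => ¬ GoodAt a b n j w ρ s)).card : ℝ) ≤
    D * ((Med a b n B ρ Λ).card : ℝ) + ε * (n + 1)

/-- PIG: pigeonhole over the scales. -/
def ST_PIG : Prop := ∀ (ε : ℝ) (B ρ₀ : ℕ) (j w : ℕ → ℕ), 0 < ε → ∃ P n₀ : ℕ, ∀ n : ℕ, n₀ ≤ n →
  ∀ (m : ℕ) (a b : Fin m → Fin m → ℤ), ∃ ρ : ℕ, ρ₀ ≤ ρ ∧ ρ ≤ P ∧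
  (∑ i, (((LL (a i) (b i) n B).filter
    (fun s => ¬ GoodAt (a i) (b i) n (j ρ) (w ρ) ρ s)).card : ℝ)) ≤ ε * (n + 1) * m

/-- INTV: the shapes for which a point is close form an interval. -/
def ST_INTV : Prop := ∀ (n P : ℕ) (x z : P2), ∃ a b : ℤ, ∀ (s : ℕ) (ρ : ℤ), s ≤ n → 0 ≤ ρ → ρ ≤ P →
  (Bx n ρ s x z ↔ a + ρ ≤ (s : ℤ) ∧ (s : ℤ) ≤ b - ρ)

/-- GRD: grid points close to a given point. -/
def ST_GRD : Prop := ∀ (s c : ℕ) (z : UnitAddCircle), ((Finset.range (2 ^ s)).filter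
  (fun i => ‖z - (((i : ℝ) / 2 ^ s : ℝ) : UnitAddCircle)‖ ≤ (c : ℝ) / 2 ^ s)).card ≤ 2 * c + 1

/-- SEL: selection of a box. -/
def ST_SEL : Prop := ∀ K : ℕ, ∃ (B : ℕ) (ε : ℝ) (n₀ : ℕ), 0 < ε ∧ ∀ n : ℕ, n₀ ≤ n →
  ∀ (m : ℕ) (X : Fin m → P2) (Bad : Fin m → ℕ → Prop), m ≤ K * 2 ^ n →
  (∑ i, (((Finset.range (n + 1)).filter
    (fun s => (near X n 0 (X i) s).card ≤ B ∧ Bad i s)).card : ℝ)) ≤ ε * (n + 1) * m →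
  ∃ (y : P2) (s : ℕ), 3 ≤ s ∧ s + 3 ≤ n ∧ (near X n (-1) y s).card ≤ B ∧
    ∀ i ∈ near X n (-1) y s, (near X n 0 (X i) s).card ≤ B ∧ ¬ Bad i s

/-- TWO: existence of the combinatorial data. -/
def ST_TWO : Prop := ∀ K : ℕ, ∃ B : ℕ, ∀ (ρ₀ : ℕ) (j w : ℕ → ℕ), ∃ n₀ : ℕ, ∀ n : ℕ, n₀ ≤ n →
  ∀ (m : ℕ) (X : Fin m → P2), m ≤ K * 2 ^ n → ∃ ρ : ℕ, ρ₀ ≤ ρ ∧ ∃ (y : P2) (s₀ : ℕ),
    Dat X n ρ B (j ρ) (w ρ) y s₀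

/-! ### The final statements -/

/-- FOOL: fooling functions. -/
def ST_FOOL : Prop := ∀ r p q : ℝ, 1 < p → p < 2 → 2 < q → 1 / p < r → ∀ (e : ℕ) (A : ℝ),
  ∃ m₀ : ℕ, ∀ m : ℕ, m₀ ≤ m → ∀ X : Fin m → TT (e + 2),
  ∃ f ∈ MixW (e + 2) r p, (∀ i, f (X i) = 0) ∧
    ENNReal.ofReal (A * (m : ℝ) ^ (-(r - 1 / p + 1 / q))) ≤
      eLpNorm f (ENNReal.ofReal q) (haar (e + 2))

/-- MAIN: all algorithms. -/
def ST_MAIN : Prop := ∀ (d : ℕ) (r p q : ℝ), 2 ≤ d → 1 < p → p < 2 → 2 < q → 1 / p < r →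
  (∀ A : ℝ, ∃ m₀ : ℕ, ∀ m : ℕ, m₀ ≤ m →
    ∀ (x : Fin m → TT d) (Ψ : (Fin m → ℝ) → TT d → ℝ),
    (∀ v, AEStronglyMeasurable (Ψ v) (haar d)) →
    ∃ f ∈ MixW d r p, ENNReal.ofReal (A * (m : ℝ) ^ (-(r - 1 / p + 1 / q))) ≤
      eLpNorm (fun t => f t - Ψ (fun i => f (x i)) t) (ENNReal.ofReal q) (haar d)) ∧
  Filter.Tendsto (fun m : ℕ => ENNReal.ofReal ((m : ℝ) ^ (r - 1 / p + 1 / q)) * samp d r p q m)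
    Filter.atTop (nhds ⊤)

end Pool.Agent.Helper37.SN
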